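import Mathlib

/-!
# One set of primes for all accuracies

An abstract diagonal argument: a statement which holds, at each accuracy `(κ, ε, δ, L)`, for all
primes of `(P, 2P]` outside a small exceptional set, holds for all accuracies at once for the primes
of one large set.
-/

set_option autoImplicit false

namespace Pool.Agent.P4f18dfU

open Finset Filter Topology

/-- the range of `X` and `H` at accuracy `c, ε` -/
def Rng (c ε : ℝ) (Q X H : ℝ) : Prop :=
  H ≤ (min X Q) ^ c ∨ (X ≤ Q ^ c ∧ H ≤ X ^ (1 - ε))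

/-- the hypothesis: at each accuracy the statement `Good` holds outside a small exceptional set -/
def AtAcc (Good : ℝ → ℕ → ℕ → ℝ → ℝ → Prop) : Prop :=
  ∀ (κ ε δ B : ℝ) (L : ℕ), 0 < κ → 0 < ε → 0 < δ → 0 < B →
    ∃ c H₀ : ℝ, ∃ P₀ : ℕ, 0 < c ∧ ∀ P : ℕ, P₀ ≤ P → ∀ Y : ℝ,
      (Real.log P) ^ κ ≤ Y → Y ≤ (P : ℝ) ^ c →
      ∃ E : Finset ℕ, (E.card : ℝ) ≤ P * Y ^ (-B) ∧
        ∀ p : ℕ, p.Prime → P < p → p ≤ 2 * P → p ∉ E →
          ∀ X H : ℝ, Y ≤ X → X ≤ Real.exp ((P : ℝ) ^ c) → H₀ ≤ H → Rng c ε P X H → Good δ L p X H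

/-- the statement holds at stage `(κ, ε, δ, L)` with the constants `c`, `H₀` -/
def Ok (Good : ℝ → ℕ → ℕ → ℝ → ℝ → Prop) (κ ε δ : ℝ) (L : ℕ) (c H₀ : ℝ) (P p : ℕ) : Prop :=
  ∀ X H : ℝ, (Real.log P) ^ κ ≤ X → X ≤ Real.exp ((P : ℝ) ^ c) → H₀ ≤ H → Rng c ε P X H →
    Good δ L p X H

theorem log_pow_le (κ c : ℝ) (hc : 0 < c) : ∀ᶠ P : ℕ in atTop, (Real.log P) ^ κ ≤ (P : ℝ) ^ c := by
  have h := (isLittleO_log_rpow_rpow_atTop κ hc).bound (zero_lt_one)
  have h2 := tendsto_natCast_atTop_atTop (R := ℝ) |>.eventually h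
  filter_upwards [h2, eventually_ge_atTop 1] with P hP hP1
  have h1 : (1 : ℝ) ≤ P := by exact_mod_cast hP1
  have e1 : 0 ≤ (Real.log P) ^ κ := Real.rpow_nonneg (Real.log_nonneg h1) _
  have e2 : 0 ≤ (P : ℝ) ^ c := Real.rpow_nonneg (by linarith) _
  rw [Real.norm_of_nonneg e1, Real.norm_of_nonneg e2, one_mul] at hP
  exact hP

/-- the number of bad primes at one stage -/
theorem stage (Good : ℝ → ℕ → ℕ → ℝ → ℝ → Prop) (h : AtAcc Good) (A : ℝ) (hA : 0 < A) (j : ℕ) :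
    ∃ c H₀ : ℝ, ∃ N : ℕ, 0 < c ∧ ∀ P : ℕ, N ≤ P → ∀ S : Finset ℕ,
      (∀ p ∈ S, p.Prime ∧ P < p ∧ p ≤ 2 * P ∧
        ¬ Ok Good (1 / ((j : ℝ) + 1)) (1 / ((j : ℝ) + 1)) (1 / ((j : ℝ) + 1)) j c H₀ P p) →
      (S.card : ℝ) ≤ P * (Real.log P) ^ (-(A + 2)) := by
  have hj : (0 : ℝ) < (j : ℝ) + 1 := by positivity
  have hκ : (0 : ℝ) < 1 / ((j : ℝ) + 1) := by positivity
  obtain ⟨c, H₀, P₀, hc, hP⟩ := h (1 / ((j : ℝ) + 1)) (1 / ((j : ℝ) + 1)) (1 / ((j : ℝ) + 1))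
    ((A + 2) * ((j : ℝ) + 1)) j hκ hκ hκ (by positivity)
  obtain ⟨N₁, hN₁⟩ := eventually_atTop.1 (log_pow_le (1 / ((j : ℝ) + 1)) c hc)
  refine ⟨c, H₀, max (max P₀ N₁) 3, hc, ?_⟩
  intro P hNP S hS
  have hP3 : 3 ≤ P := le_trans (le_max_right _ _) hNP
  have hP0 : P₀ ≤ P := le_trans (le_trans (le_max_left _ _) (le_max_left _ _)) hNP
  have hP1 : N₁ ≤ P := le_trans (le_trans (le_max_right _ _) (le_max_left _ _)) hNP
  obtain ⟨E, hE, hgood⟩ := hP P hP0 ((Real.log P) ^ (1 / ((j : ℝ) + 1))) le_rfl (hN₁ P hP1)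
  have hsub : S ⊆ E := by
    intro p hp
    obtain ⟨h1, h2, h3, h4⟩ := hS p hp
    by_contra hpE
    exact h4 (fun X H a1 a2 a3 a4 => hgood p h1 h2 h3 hpE X H a1 a2 a3 a4)
  have hlog : 0 ≤ Real.log P := Real.log_nonneg (by exact_mod_cast (by omega : 1 ≤ P))
  have hexp : ((Real.log P) ^ (1 / ((j : ℝ) + 1))) ^ (-((A + 2) * ((j : ℝ) + 1))) =
      (Real.log P) ^ (-(A + 2)) := by
    rw [← Real.rpow_mul hlog]
    congr 1
    field_simp
  calc (S.card : ℝ) ≤ E.card := by exact_mod_cast Finset.card_le_card hsub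
    _ ≤ _ := hE
    _ = _ := by rw [hexp]

theorem num_bound (A : ℝ) (hA : 0 < A) : ∀ᶠ P : ℕ in atTop, ∀ m m' : ℕ, m = Nat.log 2 P →
    (m' = m ∨ m' = m + 1) →
    ((m' : ℝ) + 1) * (((2 ^ m' : ℕ) : ℝ) * (Real.log ((2 ^ m' : ℕ) : ℝ)) ^ (-(A + 2))) ≤
      P / (Real.log P) ^ A / 2 := by
  have hlim : Tendsto (fun P : ℕ => Real.log (P : ℝ)) atTop atTop :=
    Real.tendsto_log_atTop.comp tendsto_natCast_atTop_atTop
  filter_upwards [hlim.eventually_ge_atTop (12 * 2 ^ (A + 2)), hlim.eventually_ge_atTop 4,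
    eventually_ge_atTop 4] with P hL1 hL4 hP4 m m' hm hm'
  set L := Real.log (P : ℝ) with hL
  have hL0 : 0 < L := by linarith
  have hPpos : (0 : ℝ) < P := by exact_mod_cast (by omega : 0 < P)
  have h2m : 2 ^ m ≤ P := by
    rw [hm]; exact Nat.pow_log_le_self 2 (by omega)
  have h2m1 : P < 2 ^ (m + 1) := by
    rw [hm]; exact Nat.lt_pow_succ_log_self (by norm_num) P
  have hl2 : 0.6931471803 < Real.log 2 := Real.log_two_gt_d9
  have hl2' : Real.log 2 < 0.6931471808 := Real.log_two_lt_d9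
  -- m log 2 ≤ L < (m + 1) log 2
  have hmL : (m : ℝ) * Real.log 2 ≤ L := by
    have h1 : Real.log ((2 ^ m : ℕ) : ℝ) ≤ L :=
      Real.log_le_log (by positivity) (by exact_mod_cast h2m)
    rwa [Nat.cast_pow, Nat.cast_ofNat, Real.log_pow] at h1
  have hmL2 : L ≤ ((m : ℝ) + 1) * Real.log 2 := by
    have h1 : L ≤ Real.log ((2 ^ (m + 1) : ℕ) : ℝ) :=
      Real.log_le_log hPpos (by exact_mod_cast h2m1.le)
    rwa [Nat.cast_pow, Nat.cast_ofNat, Real.log_pow, Nat.cast_add, Nat.cast_one] at h1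
  have hm'1 : (m' : ℝ) ≤ m + 1 := by
    rcases hm' with h | h <;> rw [h]
    · linarith
    · push_cast; linarith
  have hm'2 : (m : ℝ) ≤ m' := by
    rcases hm' with h | h <;> rw [h]
    push_cast; linarith
  have hlogm : L / 2 ≤ Real.log ((2 ^ m' : ℕ) : ℝ) := by
    rw [Nat.cast_pow, Nat.cast_ofNat, Real.log_pow]
    nlinarith
  have hpow2 : ((2 ^ m' : ℕ) : ℝ) ≤ 2 * P := by
    have : 2 ^ m' ≤ 2 * P := by
      rcases hm' with h | h <;> rw [h]
      · omega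
      · rw [pow_succ]; omega
    exact_mod_cast this
  have hm3 : (m' : ℝ) + 1 ≤ 3 * L := by nlinarith
  have hneg : (Real.log ((2 ^ m' : ℕ) : ℝ)) ^ (-(A + 2)) ≤ (L / 2) ^ (-(A + 2)) :=
    Real.rpow_le_rpow_of_nonpos (by linarith) hlogm (by linarith)
  have e1 : (L / 2) ^ (-(A + 2)) = 2 ^ (A + 2) * L ^ (-(A + 2)) := by
    rw [Real.div_rpow hL0.le (by norm_num), Real.rpow_neg (by norm_num : (0:ℝ) ≤ 2), div_inv_eq_mul,
      mul_comm]
  have e2 : L ^ (-(A + 2)) = (L ^ A)⁻¹ * (L ^ 2)⁻¹ := by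
    rw [Real.rpow_neg hL0.le, Real.rpow_add hL0, mul_inv]
    norm_num
  have hLA : 0 < L ^ A := Real.rpow_pos_of_pos hL0 _
  have h2A : (0 : ℝ) < 2 ^ (A + 2) := Real.rpow_pos_of_pos (by norm_num) _
  calc ((m' : ℝ) + 1) * (((2 ^ m' : ℕ) : ℝ) * (Real.log ((2 ^ m' : ℕ) : ℝ)) ^ (-(A + 2)))
      ≤ (3 * L) * ((2 * P) * (2 ^ (A + 2) * ((L ^ A)⁻¹ * (L ^ 2)⁻¹))) := by
        rw [e1, e2] at hneg
        have p1 : 0 ≤ (Real.log ((2 ^ m' : ℕ) : ℝ)) ^ (-(A + 2)) :=
          Real.rpow_nonneg (by linarith) _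
        gcongr
    _ = (P / L ^ A / 2) * ((12 * 2 ^ (A + 2)) / L) := by
        field_simp
        ring
    _ ≤ (P / L ^ A / 2) * 1 := by
        apply mul_le_mul_of_nonneg_left _ (by positivity)
        rw [div_le_one hL0]
        exact hL1
    _ = _ := by rw [mul_one]

/-- **The diagonal argument.** -/
theorem diag (Good : ℝ → ℕ → ℕ → ℝ → ℝ → Prop)
    (mono : ∀ (δ δ' : ℝ) (L L' p : ℕ) (X H : ℝ), δ' ≤ δ → L ≤ L' → Good δ' L' p X H →
      Good δ L p X H)
    (h : AtAcc Good) (A : ℝ) (hA : 0 < A) :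
    ∃ 𝒬 : Set ℕ, (∀ p ∈ 𝒬, p.Prime) ∧
      (∀ᶠ P : ℕ in atTop, ∀ S : Finset ℕ, (∀ p ∈ S, p.Prime ∧ P < p ∧ p ≤ 2 * P ∧ p ∉ 𝒬) →
        (S.card : ℝ) ≤ P / (Real.log P) ^ A) ∧
      ∀ (κ ε δ : ℝ) (L : ℕ), 0 < κ → 0 < ε → 0 < δ →
        ∃ c H₀ : ℝ, ∃ p₀ : ℕ, 0 < c ∧ ∀ p ∈ 𝒬, p₀ ≤ p → ∀ X H : ℝ,
          (Real.log p) ^ κ ≤ X → X ≤ Real.exp ((p : ℝ) ^ c) → H₀ ≤ H → Rng c ε p X H →
            Good δ L p X H := by
  classical
  choose c H₀ N hc hN using fun j => stage Good h A hA j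
  set κj : ℕ → ℝ := fun j => 1 / ((j : ℝ) + 1) with hκj
  refine ⟨{p | p.Prime ∧ ∀ m j : ℕ, j ≤ m → N j ≤ 2 ^ m → 2 ^ m < p → p ≤ 2 ^ (m + 1) →
    Ok Good (κj j) (κj j) (κj j) j (c j) (H₀ j) (2 ^ m) p}, fun p hp => hp.1, ?_, ?_⟩
  · -- counting
    filter_upwards [num_bound A hA, eventually_ge_atTop 4] with P hnum hP4 S hS
    set m := Nat.log 2 P with hm
    have h2m : 2 ^ m ≤ P := Nat.pow_log_le_self 2 (by omega)
    have h2m1 : P < 2 ^ (m + 1) := Nat.lt_pow_succ_log_self (by norm_num) P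
    -- the bad primes at stage `j` in the dyadic block `m'`
    set T : ℕ → ℕ → Finset ℕ := fun m' j => S.filter (fun p => N j ≤ 2 ^ m' ∧ 2 ^ m' < p ∧
      p ≤ 2 ^ (m' + 1) ∧ ¬ Ok Good (κj j) (κj j) (κj j) j (c j) (H₀ j) (2 ^ m') p) with hT
    have hTc : ∀ m' j, ((T m' j).card : ℝ) ≤
        ((2 ^ m' : ℕ) : ℝ) * (Real.log ((2 ^ m' : ℕ) : ℝ)) ^ (-(A + 2)) := by
      intro m' j
      by_cases hNj : N j ≤ 2 ^ m'
      · refine hN j (2 ^ m') hNj (T m' j) ?_
        intro p hp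
        rw [hT, mem_filter] at hp
        obtain ⟨hpS, -, h2, h3, h4⟩ := hp
        refine ⟨(hS p hpS).1, h2, ?_, h4⟩
        rw [pow_succ] at h3
        omega
      · have : T m' j = ∅ := by
          rw [hT, filter_eq_empty_iff]
          rintro p - ⟨h1, -⟩
          exact hNj h1
        rw [this, card_empty, Nat.cast_zero]
        have h1 : (0 : ℝ) ≤ Real.log ((2 ^ m' : ℕ) : ℝ) :=
          Real.log_nonneg (by exact_mod_cast Nat.one_le_two_pow)
        have h2 := Real.rpow_nonneg h1 (-(A + 2))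
        positivity
    have hcov : S ⊆ (range (m + 1)).biUnion (T m) ∪ (range (m + 2)).biUnion (T (m + 1)) := by
      intro p hp
      obtain ⟨h1, h2, h3, h4⟩ := hS p hp
      have h4' : ¬ (∀ m j : ℕ, j ≤ m → N j ≤ 2 ^ m → 2 ^ m < p → p ≤ 2 ^ (m + 1) →
          Ok Good (κj j) (κj j) (κj j) j (c j) (H₀ j) (2 ^ m) p) := fun hh => h4 ⟨h1, hh⟩
      push Not at h4'
      obtain ⟨m', j, hj, hNj, hp1, hp2, hnot⟩ := h4'
      have hmm : m' = m ∨ m' = m + 1 := by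
        have a1 : 2 ^ m < 2 ^ (m' + 1) := by omega
        have a2 : 2 ^ m' < 2 ^ (m + 2) := by
          have : 2 ^ (m + 2) = 2 * 2 ^ (m + 1) := by rw [pow_succ]; ring
          omega
        have b1 := (Nat.pow_lt_pow_iff_right (by norm_num : 1 < 2)).1 a1
        have b2 := (Nat.pow_lt_pow_iff_right (by norm_num : 1 < 2)).1 a2
        omega
      have hmem : p ∈ T m' j := by
        rw [hT, mem_filter]
        exact ⟨hp, hNj, hp1, hp2, hnot⟩
      rw [mem_union, mem_biUnion, mem_biUnion]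
      rcases hmm with h | h
      · left
        subst h
        exact ⟨j, mem_range.2 (by omega), hmem⟩
      · right
        subst h
        exact ⟨j, mem_range.2 (by omega), hmem⟩
    have hb : ∀ m' : ℕ, (((range (m' + 1)).biUnion (T m')).card : ℝ) ≤
        ((m' : ℝ) + 1) * (((2 ^ m' : ℕ) : ℝ) * (Real.log ((2 ^ m' : ℕ) : ℝ)) ^ (-(A + 2))) := by
      intro m'
      calc (((range (m' + 1)).biUnion (T m')).card : ℝ)
          ≤ ∑ j ∈ range (m' + 1), ((T m' j).card : ℝ) := by exact_mod_cast card_biUnion_le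
        _ ≤ ∑ _j ∈ range (m' + 1),
            ((2 ^ m' : ℕ) : ℝ) * (Real.log ((2 ^ m' : ℕ) : ℝ)) ^ (-(A + 2)) :=
            sum_le_sum fun j _ => hTc m' j
        _ = _ := by rw [sum_const, card_range, nsmul_eq_mul]; push_cast; ring
    have e1 := hnum m m rfl (Or.inl rfl)
    have e2 := hnum m (m + 1) rfl (Or.inr rfl)
    calc (S.card : ℝ) ≤ (((range (m + 1)).biUnion (T m) ∪
          (range (m + 2)).biUnion (T (m + 1))).card : ℝ) := by exact_mod_cast card_le_card hcov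
      _ ≤ (((range (m + 1)).biUnion (T m)).card : ℝ) +
          (((range (m + 1 + 1)).biUnion (T (m + 1))).card : ℝ) := by
          exact_mod_cast card_union_le _ _
      _ ≤ P / (Real.log P) ^ A / 2 + P / (Real.log P) ^ A / 2 :=
          add_le_add ((hb m).trans e1) ((hb (m + 1)).trans e2)
      _ = _ := by ring
  · -- the uniform statement
    intro κ ε δ L hκ hε hδ
    obtain ⟨j₀, hj₀⟩ := exists_nat_gt (1 / min κ (min ε δ))
    have hmin : 0 < min κ (min ε δ) := lt_min hκ (lt_min hε hδ)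
    set j := j₀ + L with hj
    have hjle : κj j ≤ min κ (min ε δ) := by
      have h1 : 1 / min κ (min ε δ) < (j : ℝ) + 1 := by
        rw [hj]; push_cast
        have : (0 : ℝ) ≤ L := Nat.cast_nonneg _
        linarith
      show 1 / ((j : ℝ) + 1) ≤ _
      rw [div_le_iff₀ (by positivity)]
      rw [div_lt_iff₀ hmin] at h1
      linarith [mul_comm (min κ (min ε δ)) ((j : ℝ) + 1)]
    have hjκ : κj j ≤ κ := hjle.trans (min_le_left _ _)
    have hjε : κj j ≤ ε := hjle.trans ((min_le_right _ _).trans (min_le_left _ _))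
    have hjδ : κj j ≤ δ := hjle.trans ((min_le_right _ _).trans (min_le_right _ _))
    have hκ0 : 0 < κj j := by show (0 : ℝ) < 1 / ((j : ℝ) + 1); positivity
    refine ⟨c j / 2, H₀ j, 2 ^ (j + N j + 3) + 3, by have := hc j; positivity, ?_⟩
    rintro p ⟨hp, hpall⟩ hp0 X H hX1 hX2 hH hR
    set m := Nat.log 2 (p - 1) with hm
    have hp3 : 3 ≤ p := le_trans (Nat.le_add_left 3 _) hp0
    have hm1 : 2 ^ m ≤ p - 1 := Nat.pow_log_le_self 2 (by omega)
    have hm2 : p - 1 < 2 ^ (m + 1) := Nat.lt_pow_succ_log_self (by norm_num) _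
    have hmge : j + N j + 3 ≤ m + 1 := by
      by_contra hcon
      have h1 : 2 ^ (m + 1) ≤ 2 ^ (j + N j + 3) := Nat.pow_le_pow_right (by norm_num) (by omega)
      omega
    have hNj : N j ≤ 2 ^ m := by
      have h1 : m < 2 ^ m := Nat.lt_two_pow_self
      omega
    have hok := hpall m j (by omega) hNj (by omega) (by omega)
    set P : ℕ := 2 ^ m with hP
    have hP4 : 4 ≤ P := by
      have h1 : 2 ^ 2 ≤ 2 ^ m := Nat.pow_le_pow_right (by norm_num) (by omega)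
      simpa [hP] using h1
    have hPp : P ≤ p := by omega
    have hp2P : p ≤ 2 * P := by
      have : 2 ^ (m + 1) = 2 * P := by rw [pow_succ, hP]; ring
      omega
    have hPR : (1 : ℝ) ≤ P := by exact_mod_cast (by omega : 1 ≤ P)
    have hPpR : (P : ℝ) ≤ p := by exact_mod_cast hPp
    have hcj := hc j
    -- `p ^ (c j / 2) ≤ P ^ c j`
    have hpP : (p : ℝ) ^ (c j / 2) ≤ (P : ℝ) ^ (c j) := by
      have h1 : (p : ℝ) ≤ (P : ℝ) ^ (2 : ℝ) := by
        have : p ≤ P ^ 2 := by nlinarith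
        rw [Real.rpow_two]
        exact_mod_cast this
      calc (p : ℝ) ^ (c j / 2) ≤ ((P : ℝ) ^ (2 : ℝ)) ^ (c j / 2) :=
            Real.rpow_le_rpow (by positivity) h1 (by positivity)
        _ = (P : ℝ) ^ (c j) := by
            rw [← Real.rpow_mul (by positivity)]
            congr 1; ring
    have hlogp1 : 1 ≤ Real.log p := by
      have h1 : Real.exp 1 ≤ p := by
        have h2 := Real.exp_one_lt_d9
        have h3 : (3 : ℝ) ≤ p := by exact_mod_cast hp3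
        linarith
      rw [Real.le_log_iff_exp_le (by positivity)]
      exact h1
    have hlogP0 : 0 ≤ Real.log P := Real.log_nonneg hPR
    have hlogle : Real.log P ≤ Real.log p := Real.log_le_log (by positivity) hPpR
    have hX0 : (Real.log P) ^ κj j ≤ X := by
      calc (Real.log P) ^ κj j ≤ (Real.log p) ^ κj j :=
            Real.rpow_le_rpow hlogP0 hlogle hκ0.le
        _ ≤ (Real.log p) ^ κ := Real.rpow_le_rpow_of_exponent_le hlogp1 hjκ
        _ ≤ X := hX1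
    have hXge1 : 1 ≤ X := le_trans (Real.one_le_rpow hlogp1 hκ.le) hX1
    refine mono _ _ _ _ _ _ _ hjδ (by omega) (hok X H hX0 ?_ hH ?_)
    · refine hX2.trans (Real.exp_le_exp.2 ?_)
      exact_mod_cast hpP
    · rcases hR with hR | ⟨hR1, hR2⟩
      · left
        refine hR.trans ?_
        rcases le_total X (P : ℝ) with hXP | hXP
        · rw [min_eq_left hXP, min_eq_left (hXP.trans hPpR)]
          exact Real.rpow_le_rpow_of_exponent_le hXge1 (by linarith)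
        · rw [min_eq_right hXP]
          exact (Real.rpow_le_rpow (le_min (by linarith) (by positivity)) (min_le_right _ _)
            (by positivity)).trans hpP
      · right
        refine ⟨hR1.trans hpP, hR2.trans ?_⟩
        exact Real.rpow_le_rpow_of_exponent_le hXge1 (by linarith)

end Pool.Agent.P4f18dfU
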