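import Pool.Agent.Lib.P4f18dfU.Seq
import Pool.Agent.Lib.P4f18dfT.Final

/-!
# The limit law for the quadratic twists of the Möbius function
-/

set_option autoImplicit false

namespace Pool.Agent.P4f18dfU

open Finset Filter Topology ProbabilityTheory Pool.Agent.P4f18df Pool.Agent.P4f18dfQ
  Pool.Agent.P4f18dfT

/-- closeness to the normal law -/
def Good (δ : ℝ) (L p : ℕ) (X H : ℝ) : Prop :=
  (∀ t, |Gd (fm p) X H t - cdf (gaussianReal 0 1) t| ≤ δ) ∧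
    (∀ k ≤ L, |Md (fm p) k X H - gm k| ≤ δ)

theorem good_mono (δ δ' : ℝ) (L L' p : ℕ) (X H : ℝ) (hδ : δ' ≤ δ) (hL : L ≤ L')
    (h : Good δ' L' p X H) : Good δ L p X H :=
  ⟨fun t => (h.1 t).trans hδ, fun k hk => (h.2 k (hk.trans hL)).trans hδ⟩

theorem good_atAcc : AtAcc Good := by
  intro κ ε δ B L hκ hε hδ hB
  obtain ⟨c, H₀, P₀, hc, h⟩ := main κ ε δ B L hκ hε hδ hB
  exact ⟨c, H₀, P₀, hc, h⟩

theorem law (A : ℝ) (hA : 0 < A) :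
    ∃ 𝒬 : Set ℕ, (∀ p ∈ 𝒬, p.Prime) ∧
      (∀ᶠ P : ℕ in atTop, ∀ S : Finset ℕ, (∀ p ∈ S, p.Prime ∧ P < p ∧ p ≤ 2 * P ∧ p ∉ 𝒬) →
        (S.card : ℝ) ≤ P / (Real.log P) ^ A) ∧
      (∀ (κ ε δ : ℝ) (L : ℕ), 0 < κ → 0 < ε → 0 < δ →
        ∃ c H₀ : ℝ, ∃ p₀ : ℕ, 0 < c ∧ ∀ p ∈ 𝒬, p₀ ≤ p → ∀ X H : ℝ,
          (Real.log p) ^ κ ≤ X → X ≤ Real.exp ((p : ℝ) ^ c) → H₀ ≤ H → Rng c ε p X H →
            Good δ L p X H) ∧
      ∀ (p : ℕ → ℕ) (X H : ℕ → ℝ), (∀ i, p i ∈ 𝒬) → Tendsto p atTop atTop →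
        Tendsto H atTop atTop → ∀ κ : ℝ, 0 < κ →
        (∀ᶠ i in atTop, (Real.log (p i)) ^ κ ≤ X i) →
        (((∃ ε : ℝ, 0 < ε ∧ ∀ᶠ i in atTop, H i ≤ (X i) ^ (1 - ε)) ∧
            Tendsto (fun i => Real.log (X i) / Real.log (p i)) atTop (𝓝 0)) ∨
          (Tendsto (fun i => Real.log (Real.log (X i)) / Real.log (p i)) atTop (𝓝 0) ∧
            Tendsto (fun i => Real.log (H i) / Real.log (min (X i) (p i))) atTop (𝓝 0))) →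
        (∀ t, Tendsto (fun i => Gd (fm (p i)) (X i) (H i) t) atTop
            (𝓝 (cdf (gaussianReal 0 1) t))) ∧
          ∀ k, Tendsto (fun i => Md (fm (p i)) k (X i) (H i)) atTop (𝓝 (gm k)) := by
  obtain ⟨𝒬, h1, h2, h3⟩ := diag Good good_mono good_atAcc A hA
  refine ⟨𝒬, h1, h2, h3, ?_⟩
  intro p X H hpQ hp hH κ hκ hX hr
  exact seq_law 𝒬 (fun p X H t => Gd (fm p) X H t) (fun p X H k => Md (fm p) k X H)
    (fun t => cdf (gaussianReal 0 1) t) gm h3 p X H hpQ hp hH κ hκ hX hr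

end Pool.Agent.P4f18dfU
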