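import Pool.Agent.Lib.P4f18dfU.Diag

/-!
# The limit law along sequences
-/

set_option autoImplicit false

namespace Pool.Agent.P4f18dfU

open Finset Filter Topology

/-- Along sequences with `log X = o(log p)`, `X ≥ (log p) ^ κ`, `H → ∞`, `H ≤ X ^ (1 - ε)`, or with
`log log X = o(log p)`, `log H = o(log min(X, p))`, the ranges of the uniform statement are reached
for every `c > 0`. -/
theorem seq_ranges (p : ℕ → ℕ) (X H : ℕ → ℝ) (κ : ℝ) (hκ : 0 < κ) (hp : Tendsto p atTop atTop)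
    (hH : Tendsto H atTop atTop) (hX : ∀ᶠ i in atTop, (Real.log (p i)) ^ κ ≤ X i)
    (hr : ((∃ ε : ℝ, 0 < ε ∧ ∀ᶠ i in atTop, H i ≤ (X i) ^ (1 - ε)) ∧
        Tendsto (fun i => Real.log (X i) / Real.log (p i)) atTop (𝓝 0)) ∨
      (Tendsto (fun i => Real.log (Real.log (X i)) / Real.log (p i)) atTop (𝓝 0) ∧
        Tendsto (fun i => Real.log (H i) / Real.log (min (X i) (p i))) atTop (𝓝 0))) :
    ∃ ε : ℝ, 0 < ε ∧ ∀ c : ℝ, 0 < c → ∀ᶠ i in atTop,
      X i ≤ Real.exp ((p i : ℝ) ^ c) ∧ Rng c ε (p i) (X i) (H i) := by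
  have hpR : Tendsto (fun i => (p i : ℝ)) atTop atTop := tendsto_natCast_atTop_atTop.comp hp
  have hlogp : Tendsto (fun i => Real.log (p i : ℝ)) atTop atTop := Real.tendsto_log_atTop.comp hpR
  have hlogpκ : Tendsto (fun i => (Real.log (p i : ℝ)) ^ κ) atTop atTop :=
    (tendsto_rpow_atTop hκ).comp hlogp
  have hXt : Tendsto X atTop atTop := tendsto_atTop_mono' _ hX hlogpκ
  rcases hr with ⟨⟨ε, hε, hHX⟩, hlim⟩ | ⟨hlim1, hlim2⟩
  · refine ⟨ε, hε, fun c hc => ?_⟩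
    have e1 : ∀ᶠ i in atTop, Real.log (X i) / Real.log (p i) ≤ min c 1 :=
      (hlim.eventually (eventually_le_nhds (lt_min hc one_pos)))
    have e2 : ∀ᶠ i in atTop, Real.log (p i : ℝ) ≤ (p i : ℝ) ^ c := by
      have h := (isLittleO_log_rpow_atTop hc).bound (zero_lt_one)
      filter_upwards [hpR.eventually h, hpR.eventually_ge_atTop 1] with i hi h1
      rw [Real.norm_of_nonneg (Real.log_nonneg h1),
        Real.norm_of_nonneg (Real.rpow_nonneg (by linarith) _), one_mul] at hi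
      exact hi
    filter_upwards [e1, e2, hHX, hXt.eventually_ge_atTop 1, hpR.eventually_ge_atTop 1,
      hlogp.eventually_ge_atTop 1] with i h1 h2 h3 hX1 hp1 hl1
    have hl0 : 0 < Real.log (p i : ℝ) := by linarith
    have hX0 : 0 < X i := by linarith
    have hp0 : (0 : ℝ) < p i := by linarith
    rw [div_le_iff₀ hl0] at h1
    have hXc : X i ≤ (p i : ℝ) ^ c := by
      rw [← Real.log_le_log_iff hX0 (Real.rpow_pos_of_pos hp0 _), Real.log_rpow hp0]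
      exact h1.trans (mul_le_mul_of_nonneg_right (min_le_left _ _) hl0.le)
    refine ⟨?_, Or.inr ⟨hXc, h3⟩⟩
    rw [← Real.log_le_iff_le_exp hX0]
    calc Real.log (X i) ≤ min c 1 * Real.log (p i) := h1
      _ ≤ 1 * Real.log (p i) := mul_le_mul_of_nonneg_right (min_le_right _ _) hl0.le
      _ = Real.log (p i) := one_mul _
      _ ≤ _ := h2
  · refine ⟨1, one_pos, fun c hc => ?_⟩
    have e1 : ∀ᶠ i in atTop, Real.log (Real.log (X i)) / Real.log (p i) ≤ c :=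
      hlim1.eventually (eventually_le_nhds hc)
    have e2 : ∀ᶠ i in atTop, Real.log (H i) / Real.log (min (X i) (p i)) ≤ c :=
      hlim2.eventually (eventually_le_nhds hc)
    filter_upwards [e1, e2, hXt.eventually_ge_atTop 3, hpR.eventually_ge_atTop 3,
      hlogp.eventually_ge_atTop 1, hH.eventually_ge_atTop 1] with i h1 h2 hX3 hp3 hl1 hH1
    have hl0 : 0 < Real.log (p i : ℝ) := by linarith
    have hX0 : 0 < X i := by linarith
    have hp0 : (0 : ℝ) < p i := by linarith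
    have hmin3 : 3 ≤ min (X i) (p i : ℝ) := le_min hX3 hp3
    have hmin0 : 0 < min (X i) (p i : ℝ) := by linarith
    have hlm : 0 < Real.log (min (X i) (p i : ℝ)) := Real.log_pos (by linarith)
    have hlX : 0 < Real.log (X i) := Real.log_pos (by linarith)
    rw [div_le_iff₀ hl0] at h1
    rw [div_le_iff₀ hlm] at h2
    refine ⟨?_, Or.inl ?_⟩
    · rw [← Real.log_le_iff_le_exp hX0,
        ← Real.log_le_log_iff hlX (Real.rpow_pos_of_pos hp0 _), Real.log_rpow hp0]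
      exact h1
    · rw [← Real.log_le_log_iff (by linarith) (Real.rpow_pos_of_pos hmin0 _), Real.log_rpow hmin0]
      exact h2

/-- The uniform statement implies the limit law along sequences. -/
theorem seq_law (𝒬 : Set ℕ) (G : ℕ → ℝ → ℝ → ℝ → ℝ) (Mo : ℕ → ℝ → ℝ → ℕ → ℝ) (Φ : ℝ → ℝ)
    (g : ℕ → ℝ)
    (hU : ∀ (κ ε δ : ℝ) (L : ℕ), 0 < κ → 0 < ε → 0 < δ →
        ∃ c H₀ : ℝ, ∃ p₀ : ℕ, 0 < c ∧ ∀ p ∈ 𝒬, p₀ ≤ p → ∀ X H : ℝ,
          (Real.log p) ^ κ ≤ X → X ≤ Real.exp ((p : ℝ) ^ c) → H₀ ≤ H → Rng c ε p X H →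
            (∀ t, |G p X H t - Φ t| ≤ δ) ∧ ∀ k ≤ L, |Mo p X H k - g k| ≤ δ)
    (p : ℕ → ℕ) (X H : ℕ → ℝ) (hpQ : ∀ i, p i ∈ 𝒬) (hp : Tendsto p atTop atTop)
    (hH : Tendsto H atTop atTop) (κ : ℝ) (hκ : 0 < κ)
    (hX : ∀ᶠ i in atTop, (Real.log (p i)) ^ κ ≤ X i)
    (hr : ((∃ ε : ℝ, 0 < ε ∧ ∀ᶠ i in atTop, H i ≤ (X i) ^ (1 - ε)) ∧
        Tendsto (fun i => Real.log (X i) / Real.log (p i)) atTop (𝓝 0)) ∨
      (Tendsto (fun i => Real.log (Real.log (X i)) / Real.log (p i)) atTop (𝓝 0) ∧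
        Tendsto (fun i => Real.log (H i) / Real.log (min (X i) (p i))) atTop (𝓝 0))) :
    (∀ t, Tendsto (fun i => G (p i) (X i) (H i) t) atTop (𝓝 (Φ t))) ∧
      ∀ k, Tendsto (fun i => Mo (p i) (X i) (H i) k) atTop (𝓝 (g k)) := by
  obtain ⟨ε, hε, hrng⟩ := seq_ranges p X H κ hκ hp hH hX hr
  have key : ∀ (δ : ℝ) (L : ℕ), 0 < δ → ∀ᶠ i in atTop,
      (∀ t, |G (p i) (X i) (H i) t - Φ t| ≤ δ) ∧ ∀ k ≤ L, |Mo (p i) (X i) (H i) k - g k| ≤ δ := by
    intro δ L hδ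
    obtain ⟨c, H₀, p₀, hc, h⟩ := hU κ ε δ L hκ hε hδ
    filter_upwards [hrng c hc, hX, hH.eventually_ge_atTop H₀, hp.eventually_ge_atTop p₀]
      with i h1 h2 h3 h4
    exact h (p i) (hpQ i) h4 (X i) (H i) h2 h1.1 h3 h1.2
  refine ⟨fun t => ?_, fun k => ?_⟩
  · rw [Metric.tendsto_atTop]
    intro δ hδ
    obtain ⟨n, hn⟩ := eventually_atTop.1 (key (δ / 2) 0 (by positivity))
    refine ⟨n, fun i hi => ?_⟩
    rw [Real.dist_eq]
    exact lt_of_le_of_lt ((hn i hi).1 t) (by linarith)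
  · rw [Metric.tendsto_atTop]
    intro δ hδ
    obtain ⟨n, hn⟩ := eventually_atTop.1 (key (δ / 2) k (by positivity))
    refine ⟨n, fun i hi => ?_⟩
    rw [Real.dist_eq]
    exact lt_of_le_of_lt ((hn i hi).2 k le_rfl) (by linarith)

end Pool.Agent.P4f18dfU
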